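import Mathlib
import Pool.Agent.H940R3.VD.Lin

/-! The confluent Vandermonde determinant with one multiple point `1`. -/

set_option autoImplicit false

namespace Pool.Agent.Helper34K9.PP

open Polynomial Finset

variable (s d : ℕ)

/-- the degree which belongs to an index -/
def dg {s d : ℕ} : Fin s ⊕ Fin d → ℕ
  | Sum.inl j => j
  | Sum.inr j => s + j

/-- the confluent Vandermonde matrix: `s` rows for the point `1`, one row for each `x i` -/
def cV {s d : ℕ} (x : Fin d → ℂ) : Matrix (Fin s ⊕ Fin d) (Fin s ⊕ Fin d) ℂ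
  | Sum.inl r, c => ((dg c).choose (r : ℕ) : ℂ)
  | Sum.inr i, c => x i ^ dg c

/-- the polynomials `(X - 1) ^ j`, `j < s`, and `(X - 1) ^ s * X ^ j` -/
noncomputable def bp {s d : ℕ} : Fin s ⊕ Fin d → ℂ[X]
  | Sum.inl j => (X - 1) ^ (j : ℕ)
  | Sum.inr j => (X - 1) ^ s * X ^ (j : ℕ)

/-- the coefficients -/
noncomputable def cU {s d : ℕ} : Matrix (Fin s ⊕ Fin d) (Fin s ⊕ Fin d) ℂ :=
  fun a c => (bp c).coeff (dg a)

lemma sum_dg {s d : ℕ} (f : ℕ → ℂ) : ∑ a : Fin s ⊕ Fin d, f (dg a) = ∑ k ∈ range (s + d), f k := by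
  rw [Fintype.sum_sum_type, Finset.sum_range_add]
  congr 1
  · exact Fin.sum_univ_eq_sum_range (fun k => f k) s
  · exact Fin.sum_univ_eq_sum_range (fun k => f (s + k)) d

lemma natDegree_X_sub_one_pow (k : ℕ) : ((X - 1 : ℂ[X]) ^ k).natDegree = k := by
  have h : (X - 1 : ℂ[X]) = X - C 1 := by simp
  rw [h, natDegree_pow, natDegree_X_sub_C, mul_one]

lemma monic_X_sub_one_pow (k : ℕ) : ((X - 1 : ℂ[X]) ^ k).Monic := by
  have h : (X - 1 : ℂ[X]) = X - C 1 := by simp
  rw [h]
  exact (monic_X_sub_C 1).pow k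

lemma bp_deg {s d : ℕ} (c : Fin s ⊕ Fin d) : (bp c).natDegree = dg c := by
  rcases c with j | j
  · exact natDegree_X_sub_one_pow _
  · show ((X - 1 : ℂ[X]) ^ s * X ^ (j : ℕ)).natDegree = s + j
    rw [(monic_X_sub_one_pow s).natDegree_mul (monic_X_pow _), natDegree_X_sub_one_pow,
      natDegree_X_pow]

lemma dg_lt {s d : ℕ} (c : Fin s ⊕ Fin d) : dg c < s + d := by
  rcases c with j | j
  · show (j : ℕ) < s + d
    have := j.2
    omega
  · show s + (j : ℕ) < s + d
    have := j.2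
    omega

lemma det_cU {s d : ℕ} : (cU (s := s) (d := d)).det = 1 := by
  have h : cU (s := s) (d := d) = Matrix.fromBlocks
      (Matrix.of fun a c : Fin s => ((X - 1 : ℂ[X]) ^ (c : ℕ)).coeff a)
      (Matrix.of fun (a : Fin s) (c : Fin d) => ((X - 1 : ℂ[X]) ^ s * X ^ (c : ℕ)).coeff a) 0
      (Matrix.of fun a c : Fin d => ((X - 1 : ℂ[X]) ^ s * X ^ (c : ℕ)).coeff (s + a)) := by
    ext a c
    rcases a with a | a <;> rcases c with c | c
    · rfl
    · rfl
    · show ((X - 1 : ℂ[X]) ^ (c : ℕ)).coeff (s + a) = 0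
      apply coeff_eq_zero_of_natDegree_lt
      rw [natDegree_X_sub_one_pow]
      have := c.2
      omega
    · rfl
  rw [h, Matrix.det_fromBlocks_zero₂₁, Matrix.det_of_isUpperTriangular, Matrix.det_of_isUpperTriangular]
  · simp only [Matrix.of_apply]
    have h1 : ∏ i : Fin s, ((X - 1 : ℂ[X]) ^ (i : ℕ)).coeff i = 1 := by
      apply Finset.prod_eq_one
      intro i _
      have := (monic_X_sub_one_pow (i : ℕ)).coeff_natDegree
      rwa [natDegree_X_sub_one_pow] at this
    have h2 : ∏ i : Fin d, ((X - 1 : ℂ[X]) ^ s * X ^ (i : ℕ)).coeff (s + i) = 1 := by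
      apply Finset.prod_eq_one
      intro i _
      rw [coeff_mul_X_pow]
      have := (monic_X_sub_one_pow s).coeff_natDegree
      rwa [natDegree_X_sub_one_pow] at this
    rw [h1, h2, mul_one]
  · intro i j hij
    show ((X - 1 : ℂ[X]) ^ s * X ^ (j : ℕ)).coeff (s + i) = 0
    have hij' : (j : ℕ) < i := hij
    apply coeff_eq_zero_of_natDegree_lt
    rw [(monic_X_sub_one_pow s).natDegree_mul (monic_X_pow _), natDegree_X_sub_one_pow,
      natDegree_X_pow]
    omega
  · intro i j hij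
    show ((X - 1 : ℂ[X]) ^ (j : ℕ)).coeff i = 0
    have hij' : (j : ℕ) < i := hij
    apply coeff_eq_zero_of_natDegree_lt
    rw [natDegree_X_sub_one_pow]
    exact hij'

/-- the Taylor coefficient at `1` as a sum over the coefficients -/
lemma taylor_sum {m : ℕ} (f : ℂ[X]) (hf : f.natDegree < m) (r : ℕ) :
    ∑ k ∈ range m, ((k.choose r : ℕ) : ℂ) * f.coeff k = (taylor 1 f).coeff r := by
  rw [taylor_coeff, hasseDeriv_apply, Polynomial.sum_def, eval_finsetSum]
  have h : ∀ k ∈ f.support, eval 1 ((monomial (k - r)) (((k.choose r : ℕ) : ℂ) * f.coeff k)) =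
      ((k.choose r : ℕ) : ℂ) * f.coeff k := by
    intro k _
    rw [eval_monomial, one_pow, mul_one]
  rw [Finset.sum_congr rfl h]
  symm
  apply Finset.sum_subset
  · intro k hk
    rw [Finset.mem_range]
    exact (le_natDegree_of_mem_supp k hk).trans_lt hf
  · intro k _ hk
    rw [notMem_support_iff.1 hk, mul_zero]

lemma taylor_bp_inl {s d : ℕ} (j : Fin s) (r : ℕ) :
    (taylor 1 (bp (Sum.inl j : Fin s ⊕ Fin d))).coeff r = if r = j then 1 else 0 := by
  show (taylor 1 ((X - 1 : ℂ[X]) ^ (j : ℕ))).coeff r = _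
  rw [taylor_pow]
  have : taylor (1 : ℂ) (X - 1 : ℂ[X]) = X := by
    rw [map_sub, taylor_X, taylor_one]
    simp
  rw [this, coeff_X_pow]

lemma taylor_bp_inr {s d : ℕ} (j : Fin d) (r : ℕ) (hr : r < s) :
    (taylor 1 (bp (Sum.inr j : Fin s ⊕ Fin d))).coeff r = 0 := by
  show (taylor 1 ((X - 1 : ℂ[X]) ^ s * X ^ (j : ℕ))).coeff r = _
  rw [taylor_mul, taylor_pow]
  have : taylor (1 : ℂ) (X - 1 : ℂ[X]) = X := by
    rw [map_sub, taylor_X, taylor_one]
    simp
  rw [this, mul_comm, coeff_mul_X_pow', if_neg (by omega)]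

lemma det_cV {s d : ℕ} (x : Fin d → ℂ) :
    (cV (s := s) x).det = (∏ i, (x i - 1) ^ s) * (Matrix.vandermonde x).det := by
  have h1 : (cV (s := s) x * cU).det = (cV (s := s) x).det := by
    rw [Matrix.det_mul, det_cU, mul_one]
  rw [← h1]
  have h2 : cV (s := s) x * cU = Matrix.fromBlocks (1 : Matrix (Fin s) (Fin s) ℂ) 0
      (Matrix.of fun (i : Fin d) (c : Fin s) => (x i - 1) ^ (c : ℕ))
      (Matrix.of fun i c : Fin d => (x i - 1) ^ s * x i ^ (c : ℕ)) := by
    ext a c
    rw [Matrix.mul_apply]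
    rcases a with a | a
    · have h3 : ∑ j, cV (s := s) x (Sum.inl a) j * cU j c =
          ∑ j : Fin s ⊕ Fin d, (fun k => (((k.choose (a : ℕ) : ℕ) : ℂ) * (bp c).coeff k)) (dg j) := rfl
      rw [h3, sum_dg (s := s) (d := d) (fun k => (((k.choose (a : ℕ) : ℕ) : ℂ) * (bp c).coeff k)),
        taylor_sum _ (by rw [bp_deg]; exact dg_lt c)]
      rcases c with c | c
      · rw [taylor_bp_inl]
        show _ = (1 : Matrix (Fin s) (Fin s) ℂ) a c
        rw [Matrix.one_apply]
        simp only [Fin.ext_iff]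
      · rw [taylor_bp_inr _ _ a.2]
        rfl
    · have h3 : ∑ j, cV (s := s) x (Sum.inr a) j * cU j c =
          ∑ j : Fin s ⊕ Fin d, (fun k => (x a ^ k * (bp c).coeff k)) (dg j) := rfl
      have h4 : ∑ k ∈ range (s + d), x a ^ k * (bp c).coeff k = (bp c).eval (x a) := by
        rw [eval_eq_sum_range' (n := s + d) (by rw [bp_deg]; exact dg_lt c)]
        exact Finset.sum_congr rfl fun k _ => mul_comm _ _
      rw [h3, sum_dg (s := s) (d := d) (fun k => (x a ^ k * (bp c).coeff k)), h4]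
      rcases c with c | c
      · show eval (x a) ((X - 1 : ℂ[X]) ^ (c : ℕ)) = (x a - 1) ^ (c : ℕ)
        simp
      · show eval (x a) ((X - 1 : ℂ[X]) ^ s * X ^ (c : ℕ)) = (x a - 1) ^ s * x a ^ (c : ℕ)
        simp
  rw [h2, Matrix.det_fromBlocks_zero₁₂, Matrix.det_one, one_mul]
  have h5 : (Matrix.of fun i c : Fin d => (x i - 1) ^ s * x i ^ (c : ℕ)) =
      Matrix.diagonal (fun i => (x i - 1) ^ s) * Matrix.vandermonde x := by
    ext i c
    rw [Matrix.diagonal_mul, Matrix.vandermonde_apply, Matrix.of_apply]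
  rw [h5, Matrix.det_mul, Matrix.det_diagonal]

end Pool.Agent.Helper34K9.PP
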