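import Mathlib
import Pool.Agent.Helper34K9.PP.Conf

/-! Hadamard's inequality for the confluent Vandermonde matrix. -/

set_option autoImplicit false

namespace Pool.Agent.Helper34K9.PP

open Polynomial Finset
open scoped ComplexOrder

lemma had {ι : Type*} [Fintype ι] [DecidableEq ι] (V : Matrix ι ι ℂ) :
    ‖V.det‖ ^ 2 ≤ ∏ a, ∑ c, ‖V a c‖ ^ 2 := by
  have h := Pool.Agent.H940R3.VD.hadamard (H := V * V.conjTranspose)
    (Matrix.posSemidef_self_mul_conjTranspose V)
  rw [Matrix.det_mul, Matrix.det_conjTranspose] at h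
  have h1 : (V.det * star V.det).re = ‖V.det‖ ^ 2 := by
    have : V.det * star V.det = ((‖V.det‖ ^ 2 : ℝ) : ℂ) := by
      rw [Complex.star_def, Complex.mul_conj, Complex.normSq_eq_norm_sq]
    rw [this, Complex.ofReal_re]
  rw [h1] at h
  refine h.trans (le_of_eq ?_)
  refine Finset.prod_congr rfl fun a _ => ?_
  rw [Matrix.mul_apply, Complex.re_sum]
  refine Finset.sum_congr rfl fun c _ => ?_
  have : V a c * V.conjTranspose c a = ((‖V a c‖ ^ 2 : ℝ) : ℂ) := by
    rw [Matrix.conjTranspose_apply, Complex.star_def, Complex.mul_conj, Complex.normSq_eq_norm_sq]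
  rw [this, Complex.ofReal_re]

lemma hockey (m r : ℕ) : ∑ k ∈ range m, k.choose r = m.choose (r + 1) := by
  induction m with
  | zero => simp
  | succ m ih => rw [Finset.sum_range_succ, ih, Nat.choose_succ_succ, add_comm]

lemma sum_choose_sq (m r : ℕ) (hm : 1 ≤ m) :
    ∑ k ∈ range m, (k.choose r) ^ 2 ≤ (m - 1).choose r * m.choose (r + 1) := by
  rw [← hockey, Finset.mul_sum]
  refine Finset.sum_le_sum fun k hk => ?_
  rw [pow_two]
  apply Nat.mul_le_mul_right
  apply Nat.choose_le_choose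
  have := Finset.mem_range.1 hk
  omega

/-- the factor which belongs to the point `1` -/
def cf (s d : ℕ) : ℕ := ∏ r ∈ range s, (s + d - 1).choose r * (s + d).choose (r + 1)

lemma sum_pow_le (x : ℂ) (m : ℕ) :
    ∑ k ∈ range m, ‖x ^ k‖ ^ 2 ≤ m * (max 1 ‖x‖) ^ (2 * (m - 1)) := by
  calc ∑ k ∈ range m, ‖x ^ k‖ ^ 2 ≤ ∑ k ∈ range m, (max 1 ‖x‖) ^ (2 * (m - 1)) := by
        refine Finset.sum_le_sum fun k hk => ?_
        rw [norm_pow, ← pow_mul, mul_comm k 2]
        calc ‖x‖ ^ (2 * k) ≤ (max 1 ‖x‖) ^ (2 * k) :=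
              pow_le_pow_left₀ (norm_nonneg _) (le_max_right _ _) _
          _ ≤ _ := pow_le_pow_right₀ (le_max_left _ _) (by
              have := Finset.mem_range.1 hk
              omega)
    _ = _ := by rw [Finset.sum_const, card_range, nsmul_eq_mul]

/-- the main inequality for arbitrary points -/
theorem det_bound {s d : ℕ} (hsd : 1 ≤ s + d) (x : Fin d → ℂ) :
    ‖(Matrix.vandermonde x).det‖ ^ 2 * (∏ i, ‖x i - 1‖) ^ (2 * s) ≤
      (s + d : ℕ) ^ d * cf s d * (∏ i, max 1 ‖x i‖) ^ (2 * (s + d - 1)) := by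
  have h := had (cV (s := s) x)
  rw [det_cV, norm_mul, norm_prod] at h
  have e1 : ∏ i, ‖(x i - 1) ^ s‖ = (∏ i, ‖x i - 1‖) ^ s := by
    rw [← Finset.prod_pow]
    exact Finset.prod_congr rfl fun i _ => norm_pow _ _
  rw [e1] at h
  have e2 : ((∏ i, ‖x i - 1‖) ^ s * ‖(Matrix.vandermonde x).det‖) ^ 2 =
      ‖(Matrix.vandermonde x).det‖ ^ 2 * (∏ i, ‖x i - 1‖) ^ (2 * s) := by
    rw [mul_pow, ← pow_mul, mul_comm s 2, mul_comm]
  rw [e2] at h
  refine h.trans ?_
  rw [Fintype.prod_sum_type]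
  have h1 : ∏ a : Fin s, ∑ c : Fin s ⊕ Fin d, ‖cV (s := s) x (Sum.inl a) c‖ ^ 2 ≤ (cf s d : ℝ) := by
    unfold cf
    rw [Nat.cast_prod, ← Fin.prod_univ_eq_prod_range (fun r =>
      (((s + d - 1).choose r * (s + d).choose (r + 1) : ℕ) : ℝ)) s]
    apply Finset.prod_le_prod
    · intro a _
      exact Finset.sum_nonneg fun c _ => sq_nonneg _
    · intro a _
      have e3 : ∑ c : Fin s ⊕ Fin d, ‖cV (s := s) x (Sum.inl a) c‖ ^ 2 =
          ((∑ k ∈ range (s + d), (k.choose (a : ℕ)) ^ 2 : ℕ) : ℝ) := by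
        have e4 : ∀ c : Fin s ⊕ Fin d, ‖cV (s := s) x (Sum.inl a) c‖ ^ 2 =
            (((dg c).choose (a : ℕ) : ℕ) : ℝ) ^ 2 := by
          intro c
          show ‖(((dg c).choose (a : ℕ) : ℕ) : ℂ)‖ ^ 2 = _
          rw [Complex.norm_natCast]
        rw [Finset.sum_congr rfl fun c _ => e4 c]
        have e5 : ∀ f : ℕ → ℝ, ∑ c : Fin s ⊕ Fin d, f (dg c) = ∑ k ∈ range (s + d), f k := by
          intro f
          rw [Fintype.sum_sum_type, Finset.sum_range_add]
          congr 1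
          · exact Fin.sum_univ_eq_sum_range (fun k => f k) s
          · exact Fin.sum_univ_eq_sum_range (fun k => f (s + k)) d
        rw [e5 (fun k => ((k.choose (a : ℕ) : ℕ) : ℝ) ^ 2)]
        push_cast
        rfl
      rw [e3]
      exact_mod_cast sum_choose_sq (s + d) a hsd
  have h2 : ∏ i : Fin d, ∑ c : Fin s ⊕ Fin d, ‖cV (s := s) x (Sum.inr i) c‖ ^ 2 ≤
      (s + d : ℕ) ^ d * (∏ i, max 1 ‖x i‖) ^ (2 * (s + d - 1)) := by
    have e6 : ((s + d : ℕ) : ℝ) ^ d * (∏ i, max 1 ‖x i‖) ^ (2 * (s + d - 1)) =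
        ∏ i : Fin d, ((s + d : ℕ) : ℝ) * (max 1 ‖x i‖) ^ (2 * (s + d - 1)) := by
      rw [Finset.prod_mul_distrib, Finset.prod_const, Finset.card_univ, Fintype.card_fin,
        Finset.prod_pow]
    rw [e6]
    apply Finset.prod_le_prod
    · intro i _
      exact Finset.sum_nonneg fun c _ => sq_nonneg _
    · intro i _
      have e5 : ∀ f : ℕ → ℝ, ∑ c : Fin s ⊕ Fin d, f (dg c) = ∑ k ∈ range (s + d), f k := by
        intro f
        rw [Fintype.sum_sum_type, Finset.sum_range_add]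
        congr 1
        · exact Fin.sum_univ_eq_sum_range (fun k => f k) s
        · exact Fin.sum_univ_eq_sum_range (fun k => f (s + k)) d
      refine le_trans (le_of_eq ?_) (sum_pow_le (x i) (s + d))
      exact e5 (fun k => ‖x i ^ k‖ ^ 2)
  calc _ ≤ (cf s d : ℝ) * ((s + d : ℕ) ^ d * (∏ i, max 1 ‖x i‖) ^ (2 * (s + d - 1))) := by
        apply mul_le_mul h1 h2 _ (Nat.cast_nonneg _)
        exact Finset.prod_nonneg fun i _ => Finset.sum_nonneg fun c _ => sq_nonneg _
    _ = _ := by ring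

end Pool.Agent.Helper34K9.PP
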