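import Mathlib
import Pool.Agent.Helper34K9.PP.Had
import Pool.Agent.R329.Par.Pow

/-! Powers of Perron numbers with infinitely many Parry powers: discriminant and periodic points. -/

set_option autoImplicit false

namespace Pool.Agent.Helper34K9.PP

open Polynomial Finset
open Pool.Agent.R329.Par Pool.Agent.H196R3.Parry

theorem eval_deriv {n : ℕ} (v : Fin n → ℂ) (i : Fin n) :
    (∏ j, (X - C (v j))).derivative.eval (v i) = ∏ j ∈ Finset.univ.erase i, (v i - v j) := by
  classical
  rw [derivative_prod_finset, eval_finsetSum, Finset.sum_eq_single i]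
  · simp [eval_prod]
  · intro j _ hj
    rw [eval_mul, eval_prod]
    have : ∏ x ∈ Finset.univ.erase j, eval (v i) (X - C (v x)) = 0 :=
      Finset.prod_eq_zero (Finset.mem_erase.2 ⟨Ne.symm hj, Finset.mem_univ _⟩) (by simp)
    rw [this, zero_mul]
  · intro h; exact absurd (Finset.mem_univ _) h

/-- the square of the Vandermonde determinant of the zeros is the discriminant -/
theorem vdm_discr (Q : ℤ[X]) (hm : Q.Monic) (hn0 : 0 < Q.natDegree) (v : Fin Q.natDegree → ℂ)
    (hF : Q.map (Int.castRingHom ℂ) = ∏ j, (X - C (v j))) :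
    ‖(Matrix.vandermonde v).det‖ ^ 2 = |(Q.discr : ℝ)| := by
  classical
  set F : ℂ[X] := Q.map (Int.castRingHom ℂ) with hFd
  have hFdeg : F.natDegree = Q.natDegree := by
    rw [hFd, natDegree_map_eq_of_injective (RingHom.injective_int _)]
  have hFlc : F.leadingCoeff = 1 := by
    rw [hFd]
    exact (hm.map _).leadingCoeff
  have hroots : F.roots = Finset.univ.val.map v := by
    rw [hF]
    have : (∏ j, (X - C (v j))) = ((Finset.univ.val.map v).map fun a => X - C a).prod := by
      rw [Multiset.map_map]; rfl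
    rw [this, roots_multiset_prod_X_sub_C]
  have hres := resultant_map_map Q Q.derivative Q.natDegree (Q.natDegree - 1) (Int.castRingHom ℂ)
  rw [← derivative_map, ← hFd] at hres
  have hdeg' : F.derivative.natDegree ≤ Q.natDegree - 1 := by
    rw [← hFdeg]; exact natDegree_derivative_le F
  have h2 := resultant_eq_prod_eval F F.derivative (Q.natDegree - 1) hdeg' (IsAlgClosed.splits F)
  rw [hFdeg, hFlc, one_pow, one_mul, hroots, Multiset.map_map] at h2
  have h3 : (Multiset.map ((fun x => eval x F.derivative) ∘ v) Finset.univ.val).prod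
      = ∏ i, (∏ j ∈ Finset.univ.erase i, (v i - v j)) := by
    have : (Multiset.map ((fun x => eval x F.derivative) ∘ v) Finset.univ.val).prod
      = ∏ i, eval (v i) F.derivative := rfl
    rw [this]
    refine Finset.prod_congr rfl fun i _ => ?_
    rw [hF, eval_deriv]
  rw [h3] at h2
  rw [h2] at hres
  have h6 := resultant_deriv (f := Q) (natDegree_pos_iff_degree_pos.1 hn0)
  rw [hm.leadingCoeff, mul_one] at h6
  rw [h6] at hres
  have h7 := congrArg norm hres
  rw [norm_prod] at h7
  have h5 : ∏ i, ∏ j ∈ ({i} : Finset (Fin Q.natDegree))ᶜ, ‖v i - v j‖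
      = ‖(Matrix.vandermonde v).det‖ ^ 2 := by
    rw [← Finset.prod_prod_Ioi_mul_eq_prod_prod_off_diag (fun j i => ‖v i - v j‖),
      Matrix.det_vandermonde, norm_prod, ← Finset.prod_pow]
    refine Finset.prod_congr rfl fun i _ => ?_
    rw [norm_prod, ← Finset.prod_pow]
    refine Finset.prod_congr rfl fun j _ => ?_
    rw [sq, norm_sub_rev (v i) (v j)]
  rw [← h5]
  have h8 : ∏ i, ‖∏ j ∈ Finset.univ.erase i, (v i - v j)‖ =
      ∏ i, ∏ j ∈ ({i} : Finset (Fin Q.natDegree))ᶜ, ‖v i - v j‖ := by
    refine Finset.prod_congr rfl fun i _ => ?_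
    rw [norm_prod, Finset.compl_singleton]
  rw [← h8, h7]
  simp only [eq_intCast, Complex.norm_intCast]
  push_cast
  rw [abs_mul, abs_pow, abs_neg, abs_one, one_pow, one_mul]

/-- a monic integer polynomial whose complex zeros are simple, as a product -/
theorem exists_roots (Q : ℤ[X]) (hm : Q.Monic) :
    ∃ v : Fin Q.natDegree → ℂ, Q.map (Int.castRingHom ℂ) = ∏ j, (X - C (v j)) := by
  set F : ℂ[X] := Q.map (Int.castRingHom ℂ) with hFd
  have hFdeg : F.natDegree = Q.natDegree := by
    rw [hFd, natDegree_map_eq_of_injective (RingHom.injective_int _)]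
  have hc : F.roots.card = Q.natDegree := by
    rw [← hFdeg]
    exact (splits_iff_card_roots.1 (IsAlgClosed.splits F))
  have hl : F.roots.toList.length = Q.natDegree := by rw [Multiset.length_toList, hc]
  refine ⟨fun j => F.roots.toList.get (Fin.cast hl.symm j), ?_⟩
  have h1 : F = (F.roots.map fun a => X - C a).prod :=
    (IsAlgClosed.splits F).eq_prod_roots_of_monic (hm.map _)
  conv_lhs => rw [h1]
  conv_lhs => rw [← Multiset.coe_toList F.roots]
  rw [Multiset.map_coe, Multiset.prod_coe, ← List.prod_ofFn]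
  congr 1
  apply List.ext_get
  · simp [hl]
  · intro k h2 h3
    simp

/-- the general inequality for a monic integer polynomial -/
theorem poly_bound (Q : ℤ[X]) (hm : Q.Monic) (hn0 : 0 < Q.natDegree) (s : ℕ) :
    |(Q.discr : ℝ)| * |((Q.eval 1 : ℤ) : ℝ)| ^ (2 * s) ≤
      ((s + Q.natDegree : ℕ) : ℝ) ^ Q.natDegree * cf s Q.natDegree *
        (Q.map (Int.castRingHom ℂ)).mahlerMeasure ^ (2 * (s + Q.natDegree - 1)) := by
  obtain ⟨v, hv⟩ := exists_roots Q hm
  have h := det_bound (s := s) (by omega : 1 ≤ s + Q.natDegree) v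
  rw [vdm_discr Q hm hn0 v hv] at h
  have h1 : ∏ i, ‖v i - 1‖ = |((Q.eval 1 : ℤ) : ℝ)| := by
    have h2 : ((Q.eval 1 : ℤ) : ℂ) = ∏ j, (1 - v j) := by
      have h3 : (Q.map (Int.castRingHom ℂ)).eval 1 = ((Q.eval 1 : ℤ) : ℂ) := by
        rw [eval_map, eval₂_at_one]
        rfl
      rw [← h3, hv, eval_prod]
      simp
    have h4 := congrArg norm h2
    rw [Complex.norm_intCast, norm_prod] at h4
    rw [h4]
    exact Finset.prod_congr rfl fun i _ => norm_sub_rev _ _
  have h5 : ∏ i, max 1 ‖v i‖ = (Q.map (Int.castRingHom ℂ)).mahlerMeasure := by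
    have hroots : (Q.map (Int.castRingHom ℂ)).roots = Finset.univ.val.map v := by
      rw [hv]
      have : (∏ j, (X - C (v j))) = ((Finset.univ.val.map v).map fun a => X - C a).prod := by
        rw [Multiset.map_map]; rfl
      rw [this, roots_multiset_prod_X_sub_C]
    rw [mahlerMeasure_eq_leadingCoeff_mul_prod_roots, (hm.map _).leadingCoeff, norm_one, one_mul,
      hroots, Multiset.map_map]
    rfl
  rw [h1, h5] at h
  exact h

end Pool.Agent.Helper34K9.PP
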