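import Mathlib
import Pool.Agent.Helper34K9.PP.App

/-! The minimal polynomials of the powers of a Perron number. -/

set_option autoImplicit false

namespace Pool.Agent.Helper34K9.PP

open Polynomial Finset
open Pool.Agent.R329.Par Pool.Agent.H196R3.Parry

/-- the complex conjugates -/
noncomputable def cj (β : ℝ) : Multiset ℂ := ((minpoly ℤ β).map (Int.castRingHom ℂ)).roots

lemma mem_cj {β : ℝ} (hint : IsIntegral ℤ β) (z : ℂ) : z ∈ cj β ↔ aeval z (minpoly ℤ β) = 0 := by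
  unfold cj
  rw [mem_roots ((minpoly.monic hint).map _).ne_zero, IsRoot.def, eval_map, aeval_def]
  rfl

lemma cj_nodup {β : ℝ} (hint : IsIntegral ℤ β) : (cj β).Nodup := by
  have hintq : IsIntegral ℚ β := hint.tower_top
  have h1 : (minpoly ℚ β).Separable := (minpoly.irreducible hintq).separable
  have h2 : ((minpoly ℚ β).map (algebraMap ℚ ℂ)).Separable := h1.map
  have h3 : (minpoly ℚ β).map (algebraMap ℚ ℂ) = (minpoly ℤ β).map (Int.castRingHom ℂ) := by
    rw [minpoly.isIntegrallyClosed_eq_field_fractions' ℚ hint, Polynomial.map_map]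
    congr 1
  rw [h3] at h2
  exact nodup_roots h2

lemma cj_card {β : ℝ} (hint : IsIntegral ℤ β) : (cj β).card = (minpoly ℤ β).natDegree := by
  unfold cj
  rw [splits_iff_card_roots.1 (IsAlgClosed.splits ((minpoly ℤ β).map (Int.castRingHom ℂ))),
    natDegree_map_eq_of_injective (RingHom.injective_int _)]

lemma root_pow {β : ℝ} (hint : IsIntegral ℤ β) {k : ℕ} {w : ℂ}
    (hw : aeval w (minpoly ℤ β) = 0) : aeval (w ^ k) (minpoly ℤ (β ^ k)) = 0 := by
  have h1 : minpoly ℤ β ∣ (minpoly ℤ (β ^ k)).comp (X ^ k) := by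
    apply minpoly.isIntegrallyClosed_dvd hint
    rw [aeval_comp, map_pow, aeval_X]
    exact minpoly.aeval ℤ (β ^ k)
  obtain ⟨S, hS⟩ := h1
  have h2 : aeval w ((minpoly ℤ (β ^ k)).comp (X ^ k)) = 0 := by
    rw [hS, map_mul, hw, zero_mul]
  rwa [aeval_comp, map_pow, aeval_X] at h2

/-- the conjugates of `β ^ k` are the `k`-th powers of the conjugates of `β` -/
lemma cj_pow {β : ℝ} (h : IsPerron β) {k : ℕ} (hk : 1 ≤ k) :
    cj (β ^ k) = (cj β).map (fun z => z ^ k) := by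
  classical
  obtain ⟨hβ, hint, hperron⟩ := h
  have hinj : ∀ x ∈ cj β, ∀ y ∈ cj β, x ^ k = y ^ k → x = y := by
    intro x hx y hy hxy
    by_contra hne
    exact torsion_free hβ hint hperron ((mem_cj hint x).1 hx) ((mem_cj hint y).1 hy) hne
      (by omega) hxy
  have h1 : ((cj β).map (fun z => z ^ k)).Nodup := (Multiset.nodup_map_iff_of_inj_on hinj).2
    (cj_nodup hint)
  refine (Multiset.Nodup.ext (cj_nodup (hint.pow k)) h1).2 fun z => ?_
  rw [mem_cj (hint.pow k), Multiset.mem_map]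
  constructor
  · intro hz
    obtain ⟨w, hw, hwz⟩ := conj_pow hint hz
    exact ⟨w, (mem_cj hint w).2 hw, hwz⟩
  · rintro ⟨w, hw, rfl⟩
    exact root_pow hint ((mem_cj hint w).1 hw)

lemma natDegree_pow {β : ℝ} (h : IsPerron β) {k : ℕ} (hk : 1 ≤ k) :
    (minpoly ℤ (β ^ k)).natDegree = (minpoly ℤ β).natDegree := by
  rw [← cj_card (h.2.1.pow k), ← cj_card h.2.1, cj_pow h hk, Multiset.card_map]

/-- `|N(β ^ n - 1)|` -/
noncomputable def nm (β : ℝ) (n : ℕ) : ℝ := ((cj β).map fun z => ‖z ^ n - 1‖).prod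

lemma nm_eq {β : ℝ} (h : IsPerron β) {n : ℕ} (hn : 1 ≤ n) :
    nm β n = |(((minpoly ℤ (β ^ n)).eval 1 : ℤ) : ℝ)| := by
  have hint := h.2.1.pow n
  set F := (minpoly ℤ (β ^ n)).map (Int.castRingHom ℂ) with hF
  have h1 : F = ((cj (β ^ n)).map fun a => X - C a).prod :=
    (IsAlgClosed.splits F).eq_prod_roots_of_monic ((minpoly.monic hint).map _)
  have h2 : F.eval 1 = (((minpoly ℤ (β ^ n)).eval 1 : ℤ) : ℂ) := by
    rw [hF, eval_map, eval₂_at_one]
    rfl
  have h3 : F.eval 1 = ((cj (β ^ n)).map fun a => (1 : ℂ) - a).prod := by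
    rw [h1, eval_multiset_prod, Multiset.map_map]
    congr 1
    apply Multiset.map_congr rfl
    intro a _
    simp
  have h4 := congrArg norm (h2.symm.trans h3)
  rw [Complex.norm_intCast] at h4
  rw [h4, cj_pow h hn, Multiset.map_map]
  unfold nm
  have h5 : ∀ S : Multiset ℂ, (S.map fun z => ‖z ^ n - 1‖).prod =
      ‖(S.map ((fun a => (1 : ℂ) - a) ∘ fun z => z ^ n)).prod‖ := by
    intro S
    induction S using Multiset.induction_on with
    | empty => simp
    | cons a S ih =>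
      rw [Multiset.map_cons, Multiset.prod_cons, Multiset.map_cons, Multiset.prod_cons, norm_mul, ih]
      congr 1
      exact norm_sub_rev _ _
  exact h5 _

lemma eval_one_ne {β : ℝ} (h : IsPerron β) {n : ℕ} (hn : 1 ≤ n) :
    (minpoly ℤ (β ^ n)).eval 1 ≠ 0 := by
  intro h0
  have hint := h.2.1.pow n
  have h1 : (1 : ℝ) < β ^ n := one_lt_pow₀ h.1 (by omega)
  have h2 : X - C (1 : ℤ) ∣ minpoly ℤ (β ^ n) := dvd_iff_isRoot.2 h0
  obtain ⟨S, hS⟩ := h2
  have hirr := minpoly.irreducible hint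
  rcases hirr.isUnit_or_isUnit hS with hu | hu
  · exact not_isUnit_X_sub_C (1 : ℤ) hu
  · have h3 : aeval (β ^ n) (minpoly ℤ (β ^ n)) = 0 := minpoly.aeval _ _
    rw [hS, map_mul] at h3
    rcases mul_eq_zero.1 h3 with h4 | h4
    · rw [map_sub, aeval_X, aeval_C] at h4
      simp at h4
      linarith
    · obtain ⟨c, hc, hcS⟩ := isUnit_iff.1 hu
      rw [← hcS, aeval_C] at h4
      have : c = 0 := by
        have h5 : ((c : ℤ) : ℝ) = 0 := by simpa using h4
        exact_mod_cast h5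
      rw [this] at hc
      exact not_isUnit_zero hc

lemma one_le_nm {β : ℝ} (h : IsPerron β) {n : ℕ} (hn : 1 ≤ n) : 1 ≤ nm β n := by
  rw [nm_eq h hn]
  exact_mod_cast Int.one_le_abs (eval_one_ne h hn)

/-- `N(β ^ n - 1)` divides `N(β ^ (n j) - 1)` -/
lemma nm_mul {β : ℝ} (h : IsPerron β) {n j : ℕ} (hn : 1 ≤ n) (hj : 1 ≤ j) :
    nm β n ≤ nm β (n * j) := by
  have hnj : 1 ≤ n * j := Nat.mul_pos hn hj
  rw [nm_eq h hn, nm_eq h hnj]
  have hint := h.2.1.pow n
  have h1 : minpoly ℤ (β ^ n) ∣ (minpoly ℤ (β ^ (n * j))).comp (X ^ j) := by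
    apply minpoly.isIntegrallyClosed_dvd hint
    rw [aeval_comp, map_pow, aeval_X, ← pow_mul]
    exact minpoly.aeval ℤ (β ^ (n * j))
  obtain ⟨S, hS⟩ := h1
  have h2 := congrArg (eval 1) hS
  rw [eval_comp, eval_mul] at h2
  simp only [eval_pow, eval_X, one_pow] at h2
  have h3 : (minpoly ℤ (β ^ n)).eval 1 ∣ (minpoly ℤ (β ^ (n * j))).eval 1 := ⟨_, h2⟩
  have h4 := Int.natAbs_le_of_dvd_ne_zero h3 (eval_one_ne h hnj)
  rw [← Int.cast_abs, ← Int.cast_abs, Int.abs_eq_natAbs, Int.abs_eq_natAbs]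
  exact_mod_cast h4

end Pool.Agent.Helper34K9.PP
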