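import Mathlib
import Pool.Agent.Helper34K9.PP.Deg

/-! The inequality for several powers at once. -/

set_option autoImplicit false

namespace Pool.Agent.Helper34K9.PP

open Polynomial Finset
open Pool.Agent.R329.Par Pool.Agent.H196R3.Parry

/-- the product of the minimal polynomials of the `β ^ a` -/
noncomputable def QA (β : ℝ) (A : Finset ℕ) : ℤ[X] := ∏ a ∈ A, minpoly ℤ (β ^ a)

lemma QA_monic {β : ℝ} (h : IsPerron β) (A : Finset ℕ) : (QA β A).Monic :=
  monic_prod_of_monic _ _ fun a _ => minpoly.monic (h.2.1.pow a)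

lemma QA_natDegree {β : ℝ} (h : IsPerron β) (A : Finset ℕ) (hA : ∀ a ∈ A, 1 ≤ a) :
    (QA β A).natDegree = A.card * (minpoly ℤ β).natDegree := by
  unfold QA
  rw [natDegree_prod_of_monic _ _ fun a _ => minpoly.monic (h.2.1.pow a)]
  rw [Finset.sum_congr rfl fun a ha => natDegree_pow h (hA a ha), Finset.sum_const, smul_eq_mul]

lemma QA_mahler {β : ℝ} (h : IsPerron β) (hinf : ¬ (parryPowers β).Finite) (A : Finset ℕ)
    (hA : ∀ a ∈ A, 1 ≤ a) :
    ((QA β A).map (Int.castRingHom ℂ)).mahlerMeasure = β ^ (∑ a ∈ A, a) := by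
  classical
  unfold QA
  induction A using Finset.induction_on with
  | empty => simp
  | insert a A ha ih =>
    rw [Finset.prod_insert ha, Polynomial.map_mul, mahlerMeasure_mul, Finset.sum_insert ha, pow_add,
      ih fun b hb => hA b (Finset.mem_insert_of_mem hb)]
    congr 1
    exact (pow_facts h hinf (hA a (Finset.mem_insert_self a A))).2.2.2.1

lemma QA_eval {β : ℝ} (h : IsPerron β) (A : Finset ℕ) (hA : ∀ a ∈ A, 1 ≤ a) :
    |((QA β A).eval 1 : ℤ)| = |(∏ a ∈ A, (minpoly ℤ (β ^ a)).eval 1 : ℤ)| := by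
  unfold QA
  rw [eval_prod]

lemma minpoly_rat {β : ℝ} (h : IsPerron β) (a : ℕ) :
    (minpoly ℤ (β ^ a)).map (Int.castRingHom ℚ) = minpoly ℚ (β ^ a) :=
  (minpoly.isIntegrallyClosed_eq_field_fractions' ℚ (h.2.1.pow a)).symm

lemma QA_sep {β : ℝ} (h : IsPerron β) (hinf : ¬ (parryPowers β).Finite) (A : Finset ℕ)
    (hA : ∀ a ∈ A, 1 ≤ a) : ((QA β A).map (Int.castRingHom ℚ)).Separable := by
  unfold QA
  rw [Polynomial.map_prod]
  apply separable_prod'
  · intro a ha b hb hab
    rw [minpoly_rat h, minpoly_rat h]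
    have ia : IsIntegral ℚ (β ^ a) := (h.2.1.pow a).tower_top
    have ib : IsIntegral ℚ (β ^ b) := (h.2.1.pow b).tower_top
    have ha' := minpoly.irreducible ia
    have hb' := minpoly.irreducible ib
    apply (ha'.coprime_iff_not_dvd).2
    intro hd
    have h1 : minpoly ℚ (β ^ a) = minpoly ℚ (β ^ b) :=
      eq_of_monic_of_associated (minpoly.monic ia) (minpoly.monic ib)
        (ha'.associated_of_dvd hb' hd)
    have h2 : minpoly ℤ (β ^ a) = minpoly ℤ (β ^ b) := by
      apply Polynomial.map_injective (Int.castRingHom ℚ) (RingHom.injective_int _)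
      rw [minpoly_rat h, minpoly_rat h, h1]
    have h3 := (pow_facts h hinf (hA a ha)).2.2.2.1
    have h4 := (pow_facts h hinf (hA b hb)).2.2.2.1
    rw [h2, h4] at h3
    exact hab (pow_right_injective₀ (by linarith [h.1]) (ne_of_gt h.1) h3.symm)
  · intro a _
    rw [minpoly_rat h]
    exact (minpoly.irreducible (h.2.1.pow a).tower_top).separable

lemma QA_discr {β : ℝ} (h : IsPerron β) (hinf : ¬ (parryPowers β).Finite) (A : Finset ℕ)
    (hA : ∀ a ∈ A, 1 ≤ a) (hpos : 0 < (QA β A).natDegree) : 1 ≤ |((QA β A).discr : ℝ)| := by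
  classical
  obtain ⟨v, hv⟩ := exists_roots (QA β A) (QA_monic h A)
  have h1 := vdm_discr (QA β A) (QA_monic h A) hpos v hv
  have h2 : ((QA β A).map (Int.castRingHom ℂ)).Separable := by
    have h3 := (QA_sep h hinf A hA).map (f := algebraMap ℚ ℂ)
    rw [Polynomial.map_map] at h3
    have : (algebraMap ℚ ℂ).comp (Int.castRingHom ℚ) = Int.castRingHom ℂ := RingHom.ext_int _ _
    rwa [this] at h3
  have h4 : Function.Injective v := by
    rw [hv] at h2
    exact (separable_prod_X_sub_C_iff).1 h2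
  have h5 : 0 < |((QA β A).discr : ℝ)| := by
    rw [← h1]
    have : (Matrix.vandermonde v).det ≠ 0 := Matrix.det_vandermonde_ne_zero_iff.2 h4
    positivity
  have h6 : (QA β A).discr ≠ 0 := by
    intro h0
    rw [h0] at h5
    simp at h5
  exact_mod_cast Int.one_le_abs h6

/-- the inequality for several powers at once -/
theorem several {β : ℝ} (h : IsPerron β) (hinf : ¬ (parryPowers β).Finite) (A : Finset ℕ)
    (hA : ∀ a ∈ A, 1 ≤ a) (hne : A.Nonempty) (s : ℕ) :
    (∏ a ∈ A, nm β a) ^ (2 * s) ≤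
      ((s + A.card * (minpoly ℤ β).natDegree : ℕ) : ℝ) ^ (A.card * (minpoly ℤ β).natDegree) *
        cf s (A.card * (minpoly ℤ β).natDegree) *
        β ^ ((∑ a ∈ A, a) * (2 * (s + A.card * (minpoly ℤ β).natDegree - 1))) := by
  have hd : 0 < (minpoly ℤ β).natDegree := minpoly.natDegree_pos h.2.1
  have hdeg := QA_natDegree h A hA
  have hpos : 0 < (QA β A).natDegree := by
    rw [hdeg]
    exact Nat.mul_pos hne.card_pos hd
  have h1 := poly_bound (QA β A) (QA_monic h A) hpos s
  rw [QA_mahler h hinf A hA, hdeg, ← pow_mul] at h1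
  have h2 := QA_discr h hinf A hA hpos
  have h3 : |(((QA β A).eval 1 : ℤ) : ℝ)| = ∏ a ∈ A, nm β a := by
    unfold QA
    rw [eval_prod, Int.cast_prod, Finset.abs_prod]
    exact Finset.prod_congr rfl fun a ha => (nm_eq h (hA a ha)).symm
  rw [h3] at h1
  refine le_trans ?_ h1
  apply le_mul_of_one_le_left _ h2
  have : 0 ≤ ∏ a ∈ A, nm β a := Finset.prod_nonneg fun a ha => by
    have := one_le_nm h (hA a ha)
    linarith
  positivity

/-- the elementary bound of the factor which belongs to the point `1` -/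
lemma cf_le (s D : ℕ) (h : 1 ≤ s + D) : cf s D ≤ (s + D) ^ (s ^ 2) := by
  unfold cf
  have h1 : ∀ r ∈ range s, (s + D - 1).choose r * (s + D).choose (r + 1) ≤
      (s + D) ^ (2 * r + 1) := by
    intro r _
    calc (s + D - 1).choose r * (s + D).choose (r + 1) ≤ (s + D) ^ r * (s + D) ^ (r + 1) := by
          apply Nat.mul_le_mul
          · exact (Nat.choose_le_pow _ _).trans (Nat.pow_le_pow_left (by omega) _)
          · exact Nat.choose_le_pow _ _
      _ = _ := by rw [← pow_add]; congr 1; ring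
  refine (Finset.prod_le_prod' h1).trans (le_of_eq ?_)
  rw [Finset.prod_pow_eq_pow_sum]
  congr 1
  clear h h1
  induction s with
  | zero => simp
  | succ s ih => rw [Finset.sum_range_succ, ih]; ring

end Pool.Agent.Helper34K9.PP
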