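import Mathlib
import Pool.Agent.Helper34K9.PP.Main

/-! Closed forms of the inequality. -/

set_option autoImplicit false

namespace Pool.Agent.Helper34K9.PP

open Polynomial Finset
open Pool.Agent.R329.Par Pool.Agent.H196R3.Parry

/-- logarithmic form for the multiples `n, 2n, …, kn` -/
theorem log_form {β : ℝ} (h : IsPerron β) (hinf : ¬ (parryPowers β).Finite) {n k s d : ℕ}
    (hn : 1 ≤ n) (hk : 1 ≤ k) (hd : (minpoly ℤ β).natDegree = d) :
    2 * s * k * Real.log (nm β n) ≤
      (k * d + s ^ 2) * Real.log (s + k * d) + n * k * (k + 1) * (s + k * d) * Real.log β := by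
  classical
  have hd0 : 0 < d := by rw [← hd]; exact minpoly.natDegree_pos h.2.1
  have hb : 0 < Real.log β := Real.log_pos h.1
  have hβ0 : 0 < β := by linarith [h.1]
  have hinj : Set.InjOn (fun j => n * (j + 1)) (range k : Set ℕ) := by
    intro a _ b _ hab
    have : n * (a + 1) = n * (b + 1) := hab
    have := Nat.eq_of_mul_eq_mul_left hn this
    omega
  set A : Finset ℕ := (range k).image fun j => n * (j + 1) with hA
  have hcard : A.card = k := by
    rw [hA, card_image_of_injOn hinj, card_range]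
  have hA1 : ∀ a ∈ A, 1 ≤ a := by
    intro a ha
    rw [hA, mem_image] at ha
    obtain ⟨j, _, rfl⟩ := ha
    exact Nat.mul_pos hn (Nat.succ_pos j)
  have hne : A.Nonempty := by
    rw [← card_pos, hcard]
    exact hk
  have hsum : 2 * (∑ a ∈ A, a) = n * k * (k + 1) := by
    rw [hA, sum_image hinj]
    have : ∀ m : ℕ, 2 * (∑ j ∈ range m, n * (j + 1)) = n * m * (m + 1) := by
      intro m
      induction m with
      | zero => simp
      | succ m ih => rw [sum_range_succ, mul_add, ih]; ring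
    exact this k
  have hN1 : 1 ≤ nm β n := one_le_nm h hn
  have hprod : nm β n ^ k ≤ ∏ a ∈ A, nm β a := by
    rw [hA, prod_image hinj]
    calc nm β n ^ k = ∏ _j ∈ range k, nm β n := by rw [prod_const, card_range]
      _ ≤ _ := prod_le_prod (fun _ _ => by linarith) fun j _ => nm_mul h hn (Nat.succ_pos j)
  have h1 := several h hinf A hA1 hne s
  rw [hcard, hd] at h1
  have h2 : (nm β n ^ k) ^ (2 * s) ≤ ((s + k * d : ℕ) : ℝ) ^ (k * d) *
      ((s + k * d : ℕ) : ℝ) ^ (s ^ 2) * β ^ (n * k * (k + 1) * (s + k * d)) := by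
    refine (pow_le_pow_left₀ (by positivity) hprod _).trans (h1.trans ?_)
    have h3 : (cf s (k * d) : ℝ) ≤ ((s + k * d : ℕ) : ℝ) ^ (s ^ 2) := by
      exact_mod_cast cf_le s (k * d) (by nlinarith)
    have h4 : β ^ ((∑ a ∈ A, a) * (2 * (s + k * d - 1))) ≤
        β ^ (n * k * (k + 1) * (s + k * d)) := by
      apply pow_le_pow_right₀ h.1.le
      calc (∑ a ∈ A, a) * (2 * (s + k * d - 1)) = (2 * ∑ a ∈ A, a) * (s + k * d - 1) := by ring
        _ ≤ _ := by rw [hsum]; exact Nat.mul_le_mul_left _ (Nat.sub_le _ _)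
    gcongr
  have hpos : (0 : ℝ) < ((s + k * d : ℕ) : ℝ) := by
    have : 0 < s + k * d := by nlinarith
    exact_mod_cast this
  have h5 := Real.log_le_log (by positivity) h2
  rw [Real.log_mul (by positivity) (by positivity), Real.log_mul (by positivity) (by positivity),
    Real.log_pow, Real.log_pow, Real.log_pow, Real.log_pow, Real.log_pow] at h5
  push_cast at h5
  linarith

lemma two_le_natDegree {β : ℝ} (h : IsPerron β) (h2 : β < 2) : 2 ≤ (minpoly ℤ β).natDegree := by
  have hpos : 0 < (minpoly ℤ β).natDegree := minpoly.natDegree_pos h.2.1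
  by_contra hcon
  have h1 : (minpoly ℤ β).natDegree = 1 := by omega
  have h3 := (minpoly.monic h.2.1).eq_X_add_C h1
  have h4 : aeval β (minpoly ℤ β) = 0 := minpoly.aeval _ _
  rw [h3, map_add, aeval_X, aeval_C] at h4
  set c := (minpoly ℤ β).coeff 0
  have h5 : β = ((-c : ℤ) : ℝ) := by
    simp at h4
    push_cast
    linarith
  have h6 := h.1
  rw [h5] at h6 h2
  have h7 : (1 : ℤ) < -c := by exact_mod_cast h6
  have h8 : -c < (2 : ℤ) := by exact_mod_cast h2
  omega

/-- elementary inequality behind the choice of `s` -/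
lemma choice {u s : ℝ} (hu : 1 ≤ u) (h1 : u ≤ s) (h2 : s ≤ u + 1) :
    u ^ 2 + s ^ 2 ≤ 2 * s * (u + 1 / 2) ∧ s + u ^ 2 ≤ 2 * s * ((1 + u) / 2) := by
  constructor
  · have : (s - u) ^ 2 ≤ 1 := by nlinarith
    nlinarith
  · nlinarith

theorem short_range {β : ℝ} (h : IsPerron β) (hinf : ¬ (parryPowers β).Finite)
    (hb : Real.log β ≤ 1 / 6) {n d : ℕ} (hn : 1 ≤ n) (hd : (minpoly ℤ β).natDegree = d)
    (hnL : (n : ℝ) ≤ Real.log (2 * d)) :
    Real.log (nm β n) ^ 4 ≤ 4 ^ 4 * (d : ℝ) ^ 2 * Real.log (2 * d) ^ 3 * n := by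
  have hβ2 : β < 2 := by
    have h1 : Real.log β < Real.log 2 := by
      have := Real.log_two_gt_d9
      linarith
    exact (Real.log_lt_log_iff (by linarith [h.1]) (by norm_num)).1 h1
  have hd2 : 2 ≤ d := by rw [← hd]; exact two_le_natDegree h hβ2
  have hd2' : (2 : ℝ) ≤ d := by exact_mod_cast hd2
  have hn' : (1 : ℝ) ≤ n := by exact_mod_cast hn
  set L := Real.log (2 * d) with hL
  have hL1 : 1 ≤ L := hn'.trans hnL
  set x := Real.sqrt (L / n) with hx
  have hx1 : 1 ≤ x := by
    rw [hx, Real.one_le_sqrt, le_div_iff₀ (by linarith)]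
    linarith
  have hx2 : x ^ 2 = L / n := Real.sq_sqrt (by positivity)
  set k := ⌊x⌋₊ with hk
  have hk1 : 1 ≤ k := Nat.one_le_floor_iff _ |>.2 hx1
  have hk1' : (1 : ℝ) ≤ k := by exact_mod_cast hk1
  have hkx : (k : ℝ) ≤ x := Nat.floor_le (by linarith)
  have hxk : x < k + 1 := Nat.lt_floor_add_one x
  set u := Real.sqrt (k * d) with hu
  have hu2 : u ^ 2 = k * d := Real.sq_sqrt (by positivity)
  have hu0 : 0 ≤ u := Real.sqrt_nonneg _
  have hu1 : 1 ≤ u := by
    rw [hu, Real.one_le_sqrt]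
    nlinarith
  set s := ⌈u⌉₊ with hs
  have hus : u ≤ s := Nat.le_ceil u
  have hsu : (s : ℝ) ≤ u + 1 := (Nat.ceil_lt_add_one hu0).le
  have h1 := log_form h hinf (s := s) hn hk1 hd
  obtain ⟨c1, c2⟩ := choice hu1 hus hsu
  rw [hu2] at c1 c2
  set Λ := Real.log (s + k * d) with hΛ
  set ν := Real.log (nm β n) with hν
  have hs0 : (0 : ℝ) < s := by linarith
  have hsk : (1 : ℝ) ≤ s + k * d := by nlinarith
  have hΛ0 : 0 ≤ Λ := Real.log_nonneg hsk
  have hb0 : 0 < Real.log β := Real.log_pos h.1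
  -- division by `2 s`
  have h2 : k * ν ≤ (u + 1 / 2) * Λ + n * k * (k + 1) * ((1 + u) / 2) * Real.log β := by
    have h3 : 2 * s * (k * ν) ≤ 2 * s * ((u + 1 / 2) * Λ +
        n * k * (k + 1) * ((1 + u) / 2) * Real.log β) := by
      have h4 : (k * d + s ^ 2) * Λ ≤ 2 * s * (u + 1 / 2) * Λ :=
        mul_le_mul_of_nonneg_right c1 hΛ0
      have h5 : n * k * (k + 1) * (s + k * d) * Real.log β ≤
          n * k * (k + 1) * (2 * s * ((1 + u) / 2)) * Real.log β := by
        gcongr
      have h6 : 2 * s * ((u + 1 / 2) * Λ + n * k * (k + 1) * ((1 + u) / 2) * Real.log β) =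
        2 * s * (u + 1 / 2) * Λ + n * k * (k + 1) * (2 * s * ((1 + u) / 2)) * Real.log β := by ring
      rw [h6]
      linarith
    exact le_of_mul_le_mul_left h3 (by positivity)
  -- the size of `Λ`
  have hu14 : 14 / 10 ≤ u := by
    apply Real.le_sqrt_of_sq_le
    nlinarith
  have hΛL : Λ ≤ 3 / 2 * L := by
    have h3 : s + k * d ≤ (9 / 8 * x) * (2 * d) := by
      have h4 : u + 1 ≤ 5 / 4 * (k * d) := by
        rw [← hu2]
        have hkd : 2 ≤ u ^ 2 := by
          rw [hu2]
          exact hd2'.trans (le_mul_of_one_le_left (by positivity) hk1')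
        have hkd2 : 14 / 10 * u ≤ u ^ 2 := by
          rw [sq]
          exact mul_le_mul_of_nonneg_right hu14 hu0
        linarith
      have h5 : (k : ℝ) * d ≤ x * d := mul_le_mul_of_nonneg_right hkx (by positivity)
      linarith
    have h4 : Λ ≤ Real.log ((9 / 8 * x) * (2 * d)) := Real.log_le_log (by linarith) h3
    rw [Real.log_mul (by positivity) (by positivity), ← hL] at h4
    have h5 : Real.log (9 / 8 * x) = Real.log (9 / 8) + Real.log x :=
      Real.log_mul (by norm_num) (by positivity)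
    have h6 : Real.log (9 / 8) ≤ 9 / 8 - 1 := Real.log_le_sub_one_of_pos (by norm_num)
    have h7 : Real.log x = 1 / 2 * Real.log (L / n) := by
      rw [hx, Real.log_sqrt (by positivity)]
      ring
    have h8 : Real.log (L / n) ≤ Real.log L :=
      Real.log_le_log (by positivity) (div_le_self (by linarith) hn')
    have h9 : Real.log L ≤ L - 1 := Real.log_le_sub_one_of_pos (by linarith)
    linarith
  -- the main estimate with `w ^ 4 = L / n`
  set w := Real.sqrt x with hw
  have hw2 : w ^ 2 = x := Real.sq_sqrt (by linarith)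
  have hw0 : 1 ≤ w := by rw [hw, Real.one_le_sqrt]; exact hx1
  set r := Real.sqrt k with hr
  have hr2 : r ^ 2 = k := Real.sq_sqrt (by positivity)
  have hr0 : 1 ≤ r := by rw [hr, Real.one_le_sqrt]; exact hk1'
  set e := Real.sqrt d with he
  have he2 : e ^ 2 = d := Real.sq_sqrt (by positivity)
  have he0 : 1 ≤ e := by rw [he, Real.one_le_sqrt]; linarith
  have hure : u = r * e := by
    rw [hu, hr, he, Real.sqrt_mul (by positivity)]
  have hrw : r ≤ w := Real.sqrt_le_sqrt hkx
  have hwr : w ≤ 142 / 100 * r := by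
    apply Real.sqrt_le_iff.2
    constructor
    · positivity
    · rw [mul_pow, hr2]
      norm_num
      linarith
  -- bound for `ν`
  have h3 : k * ν ≤ k * (4 * e * (L / w)) := by
    have h4 : (u + 1 / 2) * Λ ≤ (95 / 70 * u) * (3 / 2 * L) := by
      apply mul_le_mul _ hΛL hΛ0 (by positivity)
      linarith
    have h5 : n * k * (k + 1) * ((1 + u) / 2) * Real.log β ≤ n * k * (2 * k) * u * (1 / 6) := by
      have h6 : (1 + u) / 2 ≤ u := by linarith
      have h7 : (k : ℝ) + 1 ≤ 2 * k := by linarith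
      gcongr
    have h6 : (n : ℝ) * w ^ 4 = L := by
      have : w ^ 4 = L / n := by rw [← hx2, ← hw2]; ring
      rw [this]
      field_simp
    have h7 : (n : ℝ) * k * (2 * k) * u * (1 / 6) ≤ k * (1 / 3 * e * (L / w)) := by
      have h8 : (n : ℝ) * k * r ≤ L / w := by
        rw [le_div_iff₀ (by linarith), ← h6, ← hr2]
        have h9 : r ^ 2 * r * w ≤ w ^ 4 := by
          calc r ^ 2 * r * w ≤ w ^ 2 * w * w := by gcongr
            _ = w ^ 4 := by ring
        calc (n : ℝ) * r ^ 2 * r * w = n * (r ^ 2 * r * w) := by ring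
          _ ≤ n * w ^ 4 := by gcongr
      calc (n : ℝ) * k * (2 * k) * u * (1 / 6) = k * (1 / 3 * e * (n * k * r)) := by
            rw [hure]; ring
        _ ≤ _ := by gcongr
    have h8 : (95 / 70 * u) * (3 / 2 * L) ≤ k * (3 * e * (L / w)) := by
      rw [hure]
      have h9 : (95 / 70) * (3 / 2) * (r * w) ≤ 3 * k := by
        have h11 : r * w ≤ 142 / 100 * k := by
          rw [← hr2]
          calc r * w ≤ r * (142 / 100 * r) := mul_le_mul_of_nonneg_left hwr (by linarith)
            _ = 142 / 100 * r ^ 2 := by ring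
        linarith
      have h10 : k * (3 * e * (L / w)) = (3 * k) * e * L / w := by ring
      rw [h10, le_div_iff₀ (by linarith)]
      calc 95 / 70 * (r * e) * (3 / 2 * L) * w = (95 / 70 * (3 / 2) * (r * w)) * e * L := by ring
        _ ≤ (3 * k) * e * L := by gcongr
    have h9 : 0 ≤ k * (e * (L / w)) := by positivity
    have h10 : k * (3 * e * (L / w)) + k * (1 / 3 * e * (L / w)) ≤ k * (4 * e * (L / w)) := by
      have : k * (4 * e * (L / w)) - (k * (3 * e * (L / w)) + k * (1 / 3 * e * (L / w))) =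
        2 / 3 * (k * (e * (L / w))) := by ring
      linarith
    linarith
  have h4 : ν ≤ 4 * e * (L / w) := le_of_mul_le_mul_left h3 (by linarith)
  have hν0 : 0 ≤ ν := Real.log_nonneg (one_le_nm h hn)
  calc ν ^ 4 ≤ (4 * e * (L / w)) ^ 4 := pow_le_pow_left₀ hν0 h4 4
    _ = 4 ^ 4 * (e ^ 2) ^ 2 * L ^ 4 / w ^ 4 := by ring
    _ = _ := by
      have : w ^ 4 = L / n := by rw [← hx2, ← hw2]; ring
      rw [this, he2]
      field_simp

theorem long_range {β : ℝ} (h : IsPerron β) (hinf : ¬ (parryPowers β).Finite)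
    (hb : Real.log β ≤ 1 / 6) {n d : ℕ} (hn : 1 ≤ n) (hd : (minpoly ℤ β).natDegree = d)
    (hnL : (n : ℝ) ≤ 3 * (d - 3) * Real.log (2 * d)) :
    Real.log (nm β n) ≤ Real.sqrt (d * Real.log (2 * d) * (Real.log (2 * d) + n / 3)) +
      (Real.log (2 * d)) / 2 + n / 6 := by
  have hβ2 : β < 2 := by
    have h1 : Real.log β < Real.log 2 := by
      have := Real.log_two_gt_d9
      linarith
    exact (Real.log_lt_log_iff (by linarith [h.1]) (by norm_num)).1 h1
  have hd2 : 2 ≤ d := by rw [← hd]; exact two_le_natDegree h hβ2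
  have hd2' : (2 : ℝ) ≤ d := by exact_mod_cast hd2
  have hn' : (1 : ℝ) ≤ n := by exact_mod_cast hn
  set L := Real.log (2 * d) with hL
  have hL0 : 0 < L := Real.log_pos (by linarith)
  set u := Real.sqrt (d * (1 + n / (3 * L))) with hu
  have hu0 : 0 ≤ u := Real.sqrt_nonneg _
  have hu2 : u ^ 2 = d * (1 + n / (3 * L)) := Real.sq_sqrt (by positivity)
  have hu1 : 1 ≤ u := by
    rw [hu, Real.one_le_sqrt]
    have : 0 ≤ n / (3 * L) := by positivity
    nlinarith
  have hd3 : (3 : ℝ) < d := by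
    by_contra hcon
    have : (d : ℝ) - 3 ≤ 0 := by linarith
    nlinarith
  set s := ⌈u⌉₊ with hs
  have hus : u ≤ s := Nat.le_ceil u
  have hsu : (s : ℝ) ≤ u + 1 := (Nat.ceil_lt_add_one hu0).le
  have hud : u ≤ d - 1 := by
    rw [hu]
    apply Real.sqrt_le_iff.2
    constructor
    · linarith
    · have h1 : n / (3 * L) ≤ d - 3 := by
        rw [div_le_iff₀ (by positivity)]
        linarith
      nlinarith
  have hsd : (s : ℝ) ≤ d := by linarith
  have h1 := log_form h hinf (s := s) (k := 1) hn le_rfl hd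
  push_cast at h1
  have hΛ : Real.log (s + 1 * d) ≤ L := Real.log_le_log (by positivity) (by linarith)
  set ν := Real.log (nm β n) with hν
  have hs0 : (0 : ℝ) < s := by linarith
  have h2 : 2 * s * 1 * ν ≤ (1 * d + s ^ 2) * L + n * 1 * (1 + 1) * (s + 1 * d) * (1 / 6) := by
    refine h1.trans (add_le_add ?_ ?_)
    · exact mul_le_mul_of_nonneg_left hΛ (by positivity)
    · exact mul_le_mul_of_nonneg_left hb (by positivity)
  have h3 : Real.sqrt (d * L * (L + n / 3)) = u * L := by
    have : d * L * (L + n / 3) = (u * L) ^ 2 := by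
      rw [mul_pow, hu2]
      field_simp
    rw [this, Real.sqrt_sq (by positivity)]
  rw [h3]
  have h4 : d * L + n * d / 3 = u ^ 2 * L := by
    rw [hu2]
    field_simp
  have h5 : 2 * s * ν ≤ 2 * s * (u * L + L / 2 + n / 6) := by
    have h6 : (s - u) ^ 2 ≤ s := by nlinarith
    nlinarith
  exact le_of_mul_le_mul_left h5 (by positivity)

end Pool.Agent.Helper34K9.PP
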